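import Pool.Agent.W470.Sen.Defs

/-! SEN-LARGE: the final inequality for `m ≥ 80`. -/

set_option autoImplicit false

open Set MeasureTheory

namespace Pool.Agent.W22.SenLarge

open Pool.Agent.W470.Sen

/-! ### numerical values -/

lemma exp_ge (a b : ℕ) (hb : b ≠ 0) (c : ℝ) (h : c ^ b ≤ (2.7182818283 : ℝ) ^ a) :
    c ≤ Real.exp ((a : ℝ) / b) := by
  have h1 : (2.7182818283 : ℝ) ^ a ≤ (Real.exp 1) ^ a :=
    pow_le_pow_left₀ (by norm_num) Real.exp_one_gt_d9.le a
  have h2 : (Real.exp ((a : ℝ) / b)) ^ b = (Real.exp 1) ^ a := by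
    rw [← Real.exp_nat_mul, ← Real.exp_nat_mul, mul_one, mul_div_cancel₀ _ (by exact_mod_cast hb)]
  rw [← h2] at h1
  exact le_of_pow_le_pow_left₀ hb (Real.exp_pos _).le (h.trans h1)

lemma e185 : (6.35 : ℝ) ≤ Real.exp 1.85 := by
  have := exp_ge 37 20 (by norm_num) 6.35 (by norm_num)
  norm_num at this ⊢
  exact this

lemma e37 : (40.3 : ℝ) ≤ Real.exp 3.7 := by
  have := exp_ge 37 10 (by norm_num) 40.3 (by norm_num)
  norm_num at this ⊢
  exact this

lemma e338 : (28.6 : ℝ) ≤ Real.exp 3.38 := by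
  have := exp_ge 169 50 (by norm_num) 28.6 (by norm_num)
  norm_num at this ⊢
  exact this

lemma sqrt_e : Real.sqrt (Real.exp 1) ≤ 1.6488 := by
  rw [Real.sqrt_le_left (by norm_num)]
  have := Real.exp_one_lt_d9
  norm_num at this ⊢
  linarith

/-- `x e^(-c x)` is decreasing for `x ≥ 1 / c` -/
lemma dec {c x x0 : ℝ} (hx0 : 0 < x0) (hc : 1 ≤ c * x0) (hx : x0 ≤ x) :
    x * Real.exp (-(c * x)) ≤ x0 * Real.exp (-(c * x0)) := by
  have h1 : x ≤ x0 * Real.exp (c * (x - x0)) := by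
    have h2 := Real.add_one_le_exp (c * (x - x0))
    have h3 : x0 * (c * (x - x0) + 1) ≤ x0 * Real.exp (c * (x - x0)) :=
      mul_le_mul_of_nonneg_left h2 hx0.le
    nlinarith [mul_le_mul_of_nonneg_right hc (sub_nonneg.2 hx)]
  calc x * Real.exp (-(c * x)) ≤ (x0 * Real.exp (c * (x - x0))) * Real.exp (-(c * x)) :=
        mul_le_mul_of_nonneg_right h1 (Real.exp_pos _).le
    _ = x0 * Real.exp (-(c * x0)) := by
        rw [mul_assoc, ← Real.exp_add]
        congr 2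
        ring

/-! ### powers of square roots -/

lemma sqrt_pow_eq {m : ℕ} (hm : 2 ≤ m) {u : ℝ} (hu : 0 ≤ u) :
    (Real.sqrt u) ^ (m - 2) = u ^ (((m : ℝ) - 2) / 2) := by
  rw [Real.sqrt_eq_rpow, ← Real.rpow_natCast, ← Real.rpow_mul hu]
  congr 1
  rw [Nat.cast_sub hm]
  push_cast
  ring

lemma sqrt_pow_le_exp (N : ℕ) {u v : ℝ} (h : u ≤ 1 - v) :
    (Real.sqrt u) ^ N ≤ Real.exp (-(N * v / 2)) := by
  have h1 : Real.sqrt u ≤ Real.exp (-(v / 2)) := by
    rw [Real.sqrt_le_left (Real.exp_pos _).le, ← Real.exp_nat_mul]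
    have h2 := Real.add_one_le_exp (-v)
    have h3 : ((2 : ℕ) : ℝ) * (-(v / 2)) = -v := by push_cast; ring
    rw [h3]
    linarith
  refine (pow_le_pow_left₀ (Real.sqrt_nonneg _) h1 N).trans (le_of_eq ?_)
  rw [← Real.exp_nat_mul]
  congr 1
  ring

/-! ### integrals -/

lemma head_int {k p : ℝ} (hk : 0 < k) (hk2 : k ≤ 2) (hp : 0 ≤ p) :
    ∫ t in (0:ℝ)..(1 / 2), t * (1 - k * t) ^ p ≤ 1 / (k ^ 2 * (p + 1) * (p + 2)) := by
  have hp1 : 0 < p + 1 := by linarith
  have hp2 : 0 < p + 2 := by linarith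
  let F : ℝ → ℝ := fun t =>
    -((1 - k * t) ^ (p + 1) * (1 + (p + 1) * k * t)) / (k ^ 2 * (p + 1) * (p + 2))
  have hF : ∀ t ∈ uIcc (0:ℝ) (1 / 2), HasDerivAt F (t * (1 - k * t) ^ p) t := by
    intro t ht
    rw [uIcc_of_le (by norm_num)] at ht
    have hs : 0 ≤ 1 - k * t := by nlinarith [ht.1, ht.2]
    have h1 : HasDerivAt (fun t : ℝ => 1 - k * t) (-k) t := by
      have := ((hasDerivAt_id t).const_mul k).const_sub 1
      simpa using this
    have h2 : HasDerivAt (fun t : ℝ => (1 - k * t) ^ (p + 1)) (-k * (p + 1) * (1 - k * t) ^ p) t := by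
      have := h1.rpow_const (p := p + 1) (Or.inr (by linarith))
      rwa [add_sub_cancel_right] at this
    have h3 : HasDerivAt (fun t : ℝ => 1 + (p + 1) * k * t) ((p + 1) * k) t := by
      have := ((hasDerivAt_id t).const_mul ((p + 1) * k)).const_add 1
      simpa using this
    have h4 := ((h2.mul h3).neg).div_const (k ^ 2 * (p + 1) * (p + 2))
    have h5 : (1 - k * t) ^ (p + 1) = (1 - k * t) ^ p * (1 - k * t) :=
      Real.rpow_add_one' hs (by linarith)
    have h6 : -(-k * (p + 1) * (1 - k * t) ^ p * (1 + (p + 1) * k * t) +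
        (1 - k * t) ^ (p + 1) * ((p + 1) * k)) / (k ^ 2 * (p + 1) * (p + 2)) =
        t * (1 - k * t) ^ p := by
      rw [h5, div_eq_iff (by positivity)]
      ring
    rw [← h6]
    exact h4
  have hcont : Continuous (fun t : ℝ => t * (1 - k * t) ^ p) := by
    refine continuous_id.mul ?_
    exact Continuous.rpow_const (by fun_prop) (fun _ => Or.inr hp)
  rw [intervalIntegral.integral_eq_sub_of_hasDerivAt hF (hcont.intervalIntegrable _ _)]
  have h0 : F 0 = -(1 / (k ^ 2 * (p + 1) * (p + 2))) := by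
    simp only [F]
    rw [mul_zero, sub_zero, Real.one_rpow]
    ring
  have h1 : F (1 / 2) ≤ 0 := by
    simp only [F]
    rw [div_nonpos_iff]
    right
    refine ⟨?_, by positivity⟩
    have h2 : 0 ≤ (1 - k * (1 / 2)) ^ (p + 1) := Real.rpow_nonneg (by linarith) _
    have h3 : 0 ≤ 1 + (p + 1) * k * (1 / 2) := by positivity
    have := mul_nonneg h2 h3
    linarith
  rw [h0]
  linarith

lemma tail_int {c p : ℝ} (hc : 0 < c) (hc2 : c ≤ 2) (hp : 0 ≤ p) :
    ∫ t in (1 / 2 : ℝ)..1, (1 - c * (1 - t)) ^ p ≤ 1 / (c * (p + 1)) := by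
  have hp1 : 0 < p + 1 := by linarith
  let F : ℝ → ℝ := fun t => (1 - c * (1 - t)) ^ (p + 1) / (c * (p + 1))
  have hF : ∀ t ∈ uIcc (1 / 2 : ℝ) 1, HasDerivAt F ((1 - c * (1 - t)) ^ p) t := by
    intro t ht
    have h1 : HasDerivAt (fun t : ℝ => 1 - c * (1 - t)) c t := by
      have := (((hasDerivAt_id t).const_sub 1).const_mul c).const_sub 1
      simpa using this
    have h2 : HasDerivAt (fun t : ℝ => (1 - c * (1 - t)) ^ (p + 1))
        (c * (p + 1) * (1 - c * (1 - t)) ^ p) t := by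
      have := h1.rpow_const (p := p + 1) (Or.inr (by linarith))
      rwa [add_sub_cancel_right] at this
    have h4 := h2.div_const (c * (p + 1))
    have h6 : c * (p + 1) * (1 - c * (1 - t)) ^ p / (c * (p + 1)) = (1 - c * (1 - t)) ^ p := by
      rw [mul_div_cancel_left₀ _ (by positivity)]
    rw [← h6]
    exact h4
  have hcont : Continuous (fun t : ℝ => (1 - c * (1 - t)) ^ p) :=
    Continuous.rpow_const (by fun_prop) (fun _ => Or.inr hp)
  rw [intervalIntegral.integral_eq_sub_of_hasDerivAt hF (hcont.intervalIntegrable _ _)]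
  have h0 : F 1 = 1 / (c * (p + 1)) := by
    simp only [F]
    rw [sub_self, mul_zero, sub_zero, Real.one_rpow]
  have h1 : 0 ≤ F (1 / 2) := by
    simp only [F]
    refine div_nonneg (Real.rpow_nonneg (by linarith) _) (by positivity)
  rw [h0]
  linarith

/-! ### the inequality for `l` -/

section ineq

variable {m : ℕ} {a D : ℝ}

lemma D_lower (ha0 : 0 < a) (ha1 : a < 1) (hD : D1 m a ≤ D) :
    6 ≤ D * ((3 + m * (1 - a)) * (1 + a)) := by
  have hm0 : (0 : ℝ) ≤ m := Nat.cast_nonneg m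
  have h1 : 0 < 3 + m * (1 - a) := by nlinarith
  have h2 : 6 / ((3 + m * (1 - a)) * (1 + a)) ≤ D1 m a := by
    unfold D1
    rw [div_le_div_iff₀ (by positivity) (by positivity)]
    have h3 : 2 * (3 + m * (1 - a)) ≤ 6 + (2 * m + 3) * (1 - a) := by nlinarith
    have h4 : 0 ≤ 3 * ((3 + m * (1 - a)) * (1 + a)) := by positivity
    have h5 := mul_le_mul_of_nonneg_left h3 h4
    calc 6 * ((3 + m * (1 - a)) ^ 2 * (1 + a))
        = 3 * ((3 + m * (1 - a)) * (1 + a)) * (2 * (3 + m * (1 - a))) := by ring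
      _ ≤ _ := h5
      _ = _ := by ring
  have h3 := h2.trans hD
  rwa [div_le_iff₀ (by positivity)] at h3

lemma log48 {x : ℝ} (hx : 48 ≤ x) : 3.87 ≤ Real.log x := by
  have h1 : (67 : ℝ) * Real.log 2 ≤ 12 * Real.log 48 := by
    have e1 : (67 : ℝ) * Real.log 2 = Real.log ((2 : ℝ) ^ 67) := by
      rw [Real.log_pow]; norm_num
    have e2 : (12 : ℝ) * Real.log 48 = Real.log ((48 : ℝ) ^ 12) := by
      rw [Real.log_pow]; norm_num
    rw [e1, e2]
    exact Real.log_le_log (by norm_num) (by norm_num)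
  have h2 := Real.log_two_gt_d9
  have h3 := Real.log_le_log (by norm_num) hx
  norm_num at h2 ⊢
  linarith

lemma log32 {x : ℝ} (hx : 32 ≤ x) : 3.4657 ≤ Real.log x := by
  have e1 : Real.log 32 = 5 * Real.log 2 := by
    rw [show (32 : ℝ) = 2 ^ 5 by norm_num, Real.log_pow]
    norm_num
  have h2 := Real.log_two_gt_d9
  have h3 := Real.log_le_log (by norm_num) hx
  norm_num at h2 ⊢
  linarith

/-- (1) -/
lemma l_lower (hm : 80 ≤ m) (ha0 : 0 < a) (ha1 : a < 1) (hD : D1 m a ≤ D)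
    (hexp : (m + 1) * (1 - a) ≤ Real.exp ((m + 1) * (1 - a ^ 2) * D / 2)) {b : ℝ}
    (hb0 : 0 < b) (hb2 : b ^ 2 = 1 - a ^ 2) :
    7.4 ≤ ((m : ℝ) - 2) / 2 * D * (1 + b) := by
  have hmR : (80 : ℝ) ≤ m := by exact_mod_cast hm
  have hD6 := D_lower ha0 ha1 hD
  rcases le_or_gt (1 - a) (2 / 5) with hε | hε
  · -- small `ε`
    have hb : 2 * (1 - a) ≤ b := by
      have h1 : (2 * (1 - a)) ^ 2 ≤ b ^ 2 := by
        rw [hb2]
        nlinarith
      exact le_of_sq_le_sq h1 hb0.le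
    have hpos : 0 < (3 + m * (1 - a)) * (1 + a) := by
      have : 0 ≤ (m : ℝ) * (1 - a) := mul_nonneg (by linarith) (by linarith)
      positivity
    refine le_of_mul_le_mul_right ?_ hpos
    -- polynomial inequality
    have hpoly : 7.4 * ((3 + m * (1 - a)) * (1 + a)) ≤ 3 * (m - 2) * (1 + 2 * (1 - a)) := by
      obtain ⟨ε, hε0⟩ : ∃ ε, ε = 1 - a := ⟨_, rfl⟩
      have ha : a = 1 - ε := by linarith
      rw [← hε0] at hε
      subst ha
      have hε1 : 0 ≤ ε := by linarith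
      have h1 : 0 ≤ 6.8 + (0.4 - ε) * (457 - 592 * ε) := by
        have : 0 ≤ (0.4 - ε) * (457 - 592 * ε) := mul_nonneg (by linarith) (by linarith)
        linarith
      have h2 : 0 ≤ 0.664 + (0.4 - ε) * (5.84 - 7.4 * ε) := by
        have : 0 ≤ (0.4 - ε) * (5.84 - 7.4 * ε) := mul_nonneg (by linarith) (by linarith)
        linarith
      have h3 : 0 ≤ ((m : ℝ) - 80) * (0.664 + (0.4 - ε) * (5.84 - 7.4 * ε)) :=
        mul_nonneg (by linarith) h2
      have h4 : 3 * ((m : ℝ) - 2) * (1 + 2 * (1 - (1 - ε))) -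
          7.4 * ((3 + m * (1 - (1 - ε))) * (1 + (1 - ε))) =
          (6.8 + (0.4 - ε) * (457 - 592 * ε)) +
            ((m : ℝ) - 80) * (0.664 + (0.4 - ε) * (5.84 - 7.4 * ε)) := by ring
      linarith
    calc 7.4 * ((3 + m * (1 - a)) * (1 + a)) ≤ 3 * (m - 2) * (1 + 2 * (1 - a)) := hpoly
      _ ≤ 3 * (m - 2) * (1 + b) :=
          mul_le_mul_of_nonneg_left (by linarith) (by linarith)
      _ = (m - 2) / 2 * (1 + b) * 6 := by ring
      _ ≤ (m - 2) / 2 * (1 + b) * (D * ((3 + m * (1 - a)) * (1 + a))) :=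
          mul_le_mul_of_nonneg_left hD6 (mul_nonneg (by linarith) (by linarith))
      _ = (m - 2) / 2 * D * (1 + b) * ((3 + m * (1 - a)) * (1 + a)) := by ring
  · -- large `ε`
    have hn0 : (0 : ℝ) < m + 1 := by linarith
    have hnε : 0 < (m + 1) * (1 - a) := mul_pos hn0 (by linarith)
    have hlog : Real.log ((m + 1) * (1 - a)) ≤ (m + 1) * b ^ 2 * D / 2 := by
      rw [hb2]
      exact (Real.log_le_iff_le_exp hnε).2 hexp
    -- it suffices that `(26/27) (1+b) L ≥ 7.4 b²`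
    have hb1 : b < 1 := by
      have h1 : b ^ 2 < 1 ^ 2 := by
        rw [hb2]
        nlinarith [sq_pos_of_pos ha0]
      exact lt_of_pow_lt_pow_left₀ 2 (by norm_num) h1
    have key : ∀ L : ℝ, 0 ≤ L → L ≤ Real.log ((m + 1) * (1 - a)) →
        7.4 * b ^ 2 ≤ 26 / 27 * (1 + b) * L → 7.4 ≤ ((m : ℝ) - 2) / 2 * D * (1 + b) := by
      intro L hL0 hL h
      have hpos : 0 < (m + 1) * b ^ 2 := by positivity
      refine le_of_mul_le_mul_right ?_ hpos
      have h1 : L ≤ (m + 1) * b ^ 2 * D / 2 := hL.trans hlog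
      have h2 : 26 / 27 * ((m : ℝ) + 1) ≤ m - 2 := by linarith
      calc 7.4 * ((m + 1) * b ^ 2) = (m + 1) * (7.4 * b ^ 2) := by ring
        _ ≤ (m + 1) * (26 / 27 * (1 + b) * L) := mul_le_mul_of_nonneg_left h hn0.le
        _ = (26 / 27 * (m + 1)) * ((1 + b) * L) := by ring
        _ ≤ (m - 2) * ((1 + b) * L) :=
            mul_le_mul_of_nonneg_right h2 (mul_nonneg (by linarith) hL0)
        _ ≤ (m - 2) * ((1 + b) * ((m + 1) * b ^ 2 * D / 2)) := by
            refine mul_le_mul_of_nonneg_left ?_ (by linarith)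
            exact mul_le_mul_of_nonneg_left h1 (by linarith)
        _ = (m - 2) / 2 * D * (1 + b) * ((m + 1) * b ^ 2) := by ring
    rcases le_or_gt (1 - a) (3 / 5) with hε2 | hε2
    · have hbb : b ^ 2 ≤ 0.84 := by
        rw [hb2]
        nlinarith
      have hb3 : b ≤ 0.9166 := by
        have : b ^ 2 ≤ 0.9166 ^ 2 := hbb.trans (by norm_num)
        exact le_of_sq_le_sq this (by norm_num)
      refine key 3.4657 (by norm_num) (log32 ?_) ?_
      · nlinarith
      · nlinarith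
    · refine key 3.87 (by norm_num) (log48 ?_) ?_
      · nlinarith
      · nlinarith

/-- (2) -/
lemma T1_le (hm : 80 ≤ m) (ha0 : 0 < a) (ha1 : a < 1) (hD : D1 m a ≤ D) (hD0 : 0 < D)
    (hDlt : D < 1) (hl : 3.7 ≤ ((m : ℝ) - 2) / 2 * D) :
    (Real.sqrt (1 - D)) ^ (m + 1) / (1 - a) ≤ 0.08 := by
  have hmR : (80 : ℝ) ≤ m := by exact_mod_cast hm
  have hε0 : 0 < 1 - a := by linarith
  rcases le_or_gt (1 - a) (2 / 5) with hε | hε
  · have hD6 := D_lower ha0 ha1 hD
    have hpos : 0 < 3 + m * (1 - a) := by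
      have : 0 ≤ (m : ℝ) * (1 - a) := mul_nonneg (by linarith) hε0.le
      linarith
    have hD3 : 3 ≤ D * (3 + m * (1 - a)) := by
      have h1 : D * ((3 + m * (1 - a)) * (1 + a)) ≤ D * ((3 + m * (1 - a)) * 2) := by
        refine mul_le_mul_of_nonneg_left ?_ hD0.le
        exact mul_le_mul_of_nonneg_left (by linarith) hpos.le
      linarith
    set ζ : ℝ := m / (3 + m * (1 - a)) with hζ
    have hζ1 : 16 / 7 ≤ ζ := by
      rw [hζ, le_div_iff₀ hpos]
      nlinarith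
    have h1 : (1 - D) / (1 - a) ≤ ζ := by
      rw [hζ, div_le_div_iff₀ hε0 hpos]
      nlinarith
    have h2 : (Real.sqrt (1 - D)) ^ (m + 1) = (1 - D) * (Real.sqrt (1 - D)) ^ (m - 1) := by
      have e1 : m + 1 = 2 + (m - 1) := by omega
      rw [e1, pow_add, Real.sq_sqrt (by linarith)]
    have h3 : (Real.sqrt (1 - D)) ^ (m - 1) ≤ Real.exp (-(1.48 * ζ)) := by
      refine (sqrt_pow_le_exp (m - 1) (v := D) le_rfl).trans ?_
      rw [Real.exp_le_exp, Nat.cast_sub (by omega)]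
      push_cast
      have h4 : 3 / (3 + m * (1 - a)) ≤ D := by
        rw [div_le_iff₀ hpos]
        exact hD3
      have h5 : 1.48 * ζ ≤ ((m : ℝ) - 1) / 2 * (3 / (3 + m * (1 - a))) := by
        rw [hζ, ← mul_div_assoc, div_mul_div_comm, div_le_div_iff₀ hpos (by positivity)]
        nlinarith
      have h6 : ((m : ℝ) - 1) / 2 * (3 / (3 + m * (1 - a))) ≤ ((m : ℝ) - 1) / 2 * D :=
        mul_le_mul_of_nonneg_left h4 (by linarith)
      linarith
    have h4 : ζ * Real.exp (-(1.48 * ζ)) ≤ 16 / 7 * Real.exp (-(1.48 * (16 / 7))) :=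
      dec (by norm_num) (by norm_num) hζ1
    have h5 : Real.exp (-(1.48 * (16 / 7))) ≤ 1 / 28.6 := by
      have h6 : Real.exp (-(1.48 * (16 / 7))) ≤ Real.exp (-3.38) := by
        rw [Real.exp_le_exp]; norm_num
      refine h6.trans ?_
      rw [Real.exp_neg, ← one_div]
      exact one_div_le_one_div_of_le (by norm_num) e338
    rw [h2, mul_comm (1 - D), mul_div_assoc, mul_comm]
    calc (1 - D) / (1 - a) * (Real.sqrt (1 - D)) ^ (m - 1)
        ≤ ζ * Real.exp (-(1.48 * ζ)) :=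
          mul_le_mul h1 h3 (by positivity) (by linarith)
      _ ≤ 16 / 7 * Real.exp (-(1.48 * (16 / 7))) := h4
      _ ≤ 16 / 7 * (1 / 28.6) := mul_le_mul_of_nonneg_left h5 (by norm_num)
      _ ≤ 0.08 := by norm_num
  · have h1 : (Real.sqrt (1 - D)) ^ (m + 1) ≤ Real.exp (-3.7) := by
      refine (sqrt_pow_le_exp (m + 1) (v := D) le_rfl).trans ?_
      rw [Real.exp_le_exp]
      push_cast
      nlinarith
    have h2 : Real.exp (-3.7) ≤ 1 / 40.3 := by
      rw [Real.exp_neg, ← one_div]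
      exact one_div_le_one_div_of_le (by norm_num) e37
    rw [div_le_iff₀ hε0]
    have h3 : (0.08 : ℝ) * (2 / 5) ≤ 0.08 * (1 - a) := by linarith
    norm_num at h1 h2 h3 ⊢
    linarith

end ineq

/-! ### bounds of the contributions -/

/-- the head -/
lemma head_le {μ A z D k : ℝ} (hμ : 80 ≤ μ) (hA : 0 < A) (hz : 0 < z) (hD : 0 < D)
    (hk : k = D + A / 2) (hl : 7.4 * z ≤ (μ - 2) / 2 * D) {h : ℝ} (hh : A * D ≤ h * k ^ 2) :
    3.2976 * (A * z) * (μ * (1 / (k ^ 2 * ((μ - 2) / 2 + 1) * ((μ - 2) / 2 + 2)))) ≤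
      0.8913 * h := by
  have hk0 : 0 < k := by rw [hk]; positivity
  have e1 : 3.2976 * (A * z) * (μ * (1 / (k ^ 2 * ((μ - 2) / 2 + 1) * ((μ - 2) / 2 + 2)))) =
      13.1904 * (A * z) / (k ^ 2 * (μ + 2)) := by
    have h1 : (μ - 2) / 2 + 1 = μ / 2 := by ring
    have h2 : (μ - 2) / 2 + 2 = (μ + 2) / 2 := by ring
    rw [h1, h2]
    field_simp
    ring
  rw [e1, div_le_iff₀ (by positivity)]
  have h1 : 14.8 * z ≤ (μ + 2) * D := by nlinarith
  have h2 : 14.8 * (A * z) ≤ (μ + 2) * (A * D) := by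
    have := mul_le_mul_of_nonneg_left h1 hA.le
    linarith
  have h3 : (μ + 2) * (A * D) ≤ (μ + 2) * (h * k ^ 2) :=
    mul_le_mul_of_nonneg_left hh (by linarith)
  have h4 : 0 ≤ h * k ^ 2 := (mul_pos hA hD).le.trans hh
  have h5 : 0 ≤ (μ + 2) * (h * k ^ 2) := mul_nonneg (by linarith) h4
  nlinarith

/-- the first tail -/
lemma tailA_le {μ A z D : ℝ} (hμ : 80 ≤ μ) (hA : 0 < A) (hz : 1 / 2 ≤ z)
    (hl : 7.4 * z ≤ (μ - 2) / 2 * D) :
    3.2976 * (A * z) * (μ * (3 / 8 * Real.exp (-((μ - 2) / 2 * D / 2 + (μ - 2) / 2 * A / 4)))) ≤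
      0.3 := by
  set p : ℝ := (μ - 2) / 2 with hp
  have hp39 : 39 ≤ p := by rw [hp]; linarith
  have hμp : μ ≤ 80 / 39 * p := by rw [hp]; linarith
  set u : ℝ := p * A / 4 with hu
  have h1 : u * Real.exp (-u) ≤ Real.exp (-1) := by
    have h2 := Real.add_one_le_exp (u - 1)
    have h3 : u ≤ Real.exp (u - 1) := by linarith
    calc u * Real.exp (-u) ≤ Real.exp (u - 1) * Real.exp (-u) :=
          mul_le_mul_of_nonneg_right h3 (Real.exp_pos _).le
      _ = Real.exp (-1) := by rw [← Real.exp_add]; congr 1; ring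
  have h2 : Real.exp (-1) ≤ 0.3679 := by
    rw [Real.exp_neg]
    have h3 := Real.exp_one_gt_d9
    rw [inv_le_comm₀ (Real.exp_pos 1) (by norm_num)]
    refine le_trans ?_ h3.le
    norm_num
  have h3 : z * Real.exp (-(p * D / 2)) ≤ 1 / 2 * (1 / 6.35) := by
    have e1 : z * Real.exp (-(p * D / 2)) ≤ z * Real.exp (-(3.7 * z)) := by
      refine mul_le_mul_of_nonneg_left ?_ (by linarith)
      rw [Real.exp_le_exp]
      linarith
    have e2 : z * Real.exp (-(3.7 * z)) ≤ 1 / 2 * Real.exp (-(3.7 * (1 / 2))) :=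
      dec (by norm_num) (by norm_num) hz
    have e3 : Real.exp (-(3.7 * (1 / 2))) ≤ 1 / 6.35 := by
      rw [show (3.7 * (1 / 2) : ℝ) = 1.85 by norm_num, Real.exp_neg, ← one_div]
      exact one_div_le_one_div_of_le (by norm_num) e185
    exact (e1.trans e2).trans (mul_le_mul_of_nonneg_left e3 (by norm_num))
  have h4 : A * μ * Real.exp (-u) ≤ 320 / 39 * 0.3679 := by
    have e1 : A * μ ≤ 320 / 39 * u := by
      rw [hu]
      have := mul_le_mul_of_nonneg_left hμp hA.le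
      linarith
    calc A * μ * Real.exp (-u) ≤ 320 / 39 * u * Real.exp (-u) :=
          mul_le_mul_of_nonneg_right e1 (Real.exp_pos _).le
      _ = 320 / 39 * (u * Real.exp (-u)) := by ring
      _ ≤ 320 / 39 * 0.3679 := mul_le_mul_of_nonneg_left (h1.trans h2) (by norm_num)
  have h5 : Real.exp (-(p * D / 2 + p * A / 4)) = Real.exp (-(p * D / 2)) * Real.exp (-u) := by
    rw [← Real.exp_add]; congr 1; rw [hu]; ring
  rw [h5]
  have e0 : 3.2976 * (A * z) * (μ * (3 / 8 * (Real.exp (-(p * D / 2)) * Real.exp (-u)))) =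
      1.2366 * ((z * Real.exp (-(p * D / 2))) * (A * μ * Real.exp (-u))) := by ring
  rw [e0]
  have h6 : (z * Real.exp (-(p * D / 2))) * (A * μ * Real.exp (-u)) ≤
      (1 / 2 * (1 / 6.35)) * (320 / 39 * 0.3679) :=
    mul_le_mul h3 h4 (mul_nonneg (mul_nonneg hA.le (by linarith)) (Real.exp_pos _).le) (by norm_num)
  calc 1.2366 * ((z * Real.exp (-(p * D / 2))) * (A * μ * Real.exp (-u)))
      ≤ 1.2366 * ((1 / 2 * (1 / 6.35)) * (320 / 39 * 0.3679)) :=
        mul_le_mul_of_nonneg_left h6 (by norm_num)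
    _ ≤ 0.3 := by norm_num

/-- the second tail -/
lemma tailB_le {μ A z D : ℝ} (hμ : 80 ≤ μ) (hA4 : A ≤ 4 * D) (hz : 1 / 2 ≤ z)
    (hl : 7.4 * z ≤ (μ - 2) / 2 * D) :
    3.2976 * (A * z) * (μ * (3 / 8 * Real.exp (-((μ - 2) / 2 * D)))) ≤ 0.466 := by
  set p : ℝ := (μ - 2) / 2 with hp
  have hp39 : 39 ≤ p := by rw [hp]; linarith
  have hμp : μ ≤ 80 / 39 * p := by rw [hp]; linarith
  have hl37 : 3.7 ≤ p * D := by linarith
  have h1 : (p * D) * Real.exp (-(1 * (p * D))) ≤ (7.4 * z) * Real.exp (-(1 * (7.4 * z))) :=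
    dec (by linarith) (by linarith) hl
  have h2 : z * Real.exp (-(3.7 * z)) ≤ 1 / 2 * Real.exp (-(3.7 * (1 / 2))) :=
    dec (by norm_num) (by norm_num) hz
  have h3 : Real.exp (-(3.7 * (1 / 2))) ≤ 1 / 6.35 := by
    rw [show (3.7 * (1 / 2) : ℝ) = 1.85 by norm_num, Real.exp_neg, ← one_div]
    exact one_div_le_one_div_of_le (by norm_num) e185
  have h4 : z * Real.exp (-(3.7 * z)) ≤ 1 / 2 * (1 / 6.35) :=
    h2.trans (mul_le_mul_of_nonneg_left h3 (by norm_num))
  have h5 : z * ((7.4 * z) * Real.exp (-(1 * (7.4 * z)))) = 7.4 * (z * Real.exp (-(3.7 * z))) ^ 2 := by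
    have : Real.exp (-(1 * (7.4 * z))) = Real.exp (-(3.7 * z)) ^ 2 := by
      rw [← Real.exp_nat_mul]; congr 1; push_cast; ring
    rw [this]; ring
  have h6 : (z * Real.exp (-(3.7 * z))) ^ 2 ≤ (1 / 2 * (1 / 6.35)) ^ 2 :=
    pow_le_pow_left₀ (mul_nonneg (by linarith) (Real.exp_pos _).le) h4 2
  have h7 : z * ((p * D) * Real.exp (-(1 * (p * D)))) ≤ 7.4 * (1 / 2 * (1 / 6.35)) ^ 2 := by
    calc z * ((p * D) * Real.exp (-(1 * (p * D)))) ≤
        z * ((7.4 * z) * Real.exp (-(1 * (7.4 * z)))) := mul_le_mul_of_nonneg_left h1 (by linarith)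
      _ = 7.4 * (z * Real.exp (-(3.7 * z))) ^ 2 := h5
      _ ≤ _ := mul_le_mul_of_nonneg_left h6 (by norm_num)
  have h8 : A * μ ≤ 320 / 39 * (p * D) := by
    have hD : 0 < D := by
      by_contra hcon
      push Not at hcon
      nlinarith
    calc A * μ ≤ 4 * D * μ := mul_le_mul_of_nonneg_right hA4 (by linarith)
      _ ≤ 4 * D * (80 / 39 * p) := mul_le_mul_of_nonneg_left hμp (by linarith)
      _ = 320 / 39 * (p * D) := by ring
  have e0 : 3.2976 * (A * z) * (μ * (3 / 8 * Real.exp (-(p * D)))) =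
      1.2366 * (z * ((A * μ) * Real.exp (-(1 * (p * D))))) := by
    rw [one_mul]; ring
  rw [e0]
  have h9 : z * ((A * μ) * Real.exp (-(1 * (p * D)))) ≤
      320 / 39 * (7.4 * (1 / 2 * (1 / 6.35)) ^ 2) := by
    calc z * ((A * μ) * Real.exp (-(1 * (p * D)))) ≤
        z * ((320 / 39 * (p * D)) * Real.exp (-(1 * (p * D)))) := by
          refine mul_le_mul_of_nonneg_left ?_ (by linarith)
          exact mul_le_mul_of_nonneg_right h8 (Real.exp_pos _).le
      _ = 320 / 39 * (z * ((p * D) * Real.exp (-(1 * (p * D))))) := by ring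
      _ ≤ _ := mul_le_mul_of_nonneg_left h7 (by norm_num)
  calc 1.2366 * (z * ((A * μ) * Real.exp (-(1 * (p * D)))))
      ≤ 1.2366 * (320 / 39 * (7.4 * (1 / 2 * (1 / 6.35)) ^ 2)) :=
        mul_le_mul_of_nonneg_left h9 (by norm_num)
    _ ≤ 0.466 := by norm_num

/-- the third tail -/
lemma tailC_le {μ A z D c : ℝ} (hμ : 80 ≤ μ) (hD : 0 < D) (hc : c = A / 2 - D)
    (hA4 : 4 * D ≤ A) (hz : 1 / 2 ≤ z) (hl : 7.4 * z ≤ (μ - 2) / 2 * D) :
    3.2976 * (A * z) * (μ * (Real.exp (-((μ - 2) / 2 * D)) * (1 / (c * ((μ - 2) / 2 + 1))))) ≤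
      0.33 := by
  have hc0 : 0 < c := by rw [hc]; linarith
  have hAc : A ≤ 4 * c := by rw [hc]; linarith
  have h1 : z * Real.exp (-(7.4 * z)) ≤ 1 / 2 * Real.exp (-(7.4 * (1 / 2))) :=
    dec (by norm_num) (by norm_num) hz
  have h2 : Real.exp (-(7.4 * (1 / 2))) ≤ 1 / 40.3 := by
    rw [show (7.4 * (1 / 2) : ℝ) = 3.7 by norm_num, Real.exp_neg, ← one_div]
    exact one_div_le_one_div_of_le (by norm_num) e37
  have h3 : z * Real.exp (-((μ - 2) / 2 * D)) ≤ 1 / 2 * (1 / 40.3) := by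
    calc z * Real.exp (-((μ - 2) / 2 * D)) ≤ z * Real.exp (-(7.4 * z)) := by
          refine mul_le_mul_of_nonneg_left ?_ (by linarith)
          rw [Real.exp_le_exp]
          linarith
      _ ≤ 1 / 2 * Real.exp (-(7.4 * (1 / 2))) := h1
      _ ≤ _ := mul_le_mul_of_nonneg_left h2 (by norm_num)
  have e0 : 3.2976 * (A * z) * (μ * (Real.exp (-((μ - 2) / 2 * D)) *
      (1 / (c * ((μ - 2) / 2 + 1))))) =
      6.5952 * (A / c) * (z * Real.exp (-((μ - 2) / 2 * D))) := by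
    have h4 : (μ - 2) / 2 + 1 = μ / 2 := by ring
    rw [h4]
    field_simp
    ring
  rw [e0]
  have h5 : A / c ≤ 4 := by
    rw [div_le_iff₀ hc0]
    exact hAc
  have h6 : 0 ≤ z * Real.exp (-((μ - 2) / 2 * D)) :=
    mul_nonneg (by linarith) (Real.exp_pos _).le
  calc 6.5952 * (A / c) * (z * Real.exp (-((μ - 2) / 2 * D)))
      ≤ 6.5952 * 4 * (z * Real.exp (-((μ - 2) / 2 * D))) :=
        mul_le_mul_of_nonneg_right (mul_le_mul_of_nonneg_left h5 (by norm_num)) h6
    _ ≤ 6.5952 * 4 * (1 / 2 * (1 / 40.3)) := mul_le_mul_of_nonneg_left h3 (by norm_num)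
    _ ≤ 0.33 := by norm_num

/-! ### pointwise bounds of `g` -/

lemma pt_head {A D t : ℝ} (hA : 0 < A) (ht0 : 0 ≤ t) (ht : t ≤ 1 / 2) :
    1 - D * t - A * t * (1 - t) ≤ 1 - (D + A / 2) * t := by
  have h2 : 0 ≤ A * t * (1 / 2 - t) := mul_nonneg (mul_nonneg hA.le ht0) (by linarith)
  linarith

lemma pt_A {A D t : ℝ} (hA : 0 < A) (hx : A ≤ 2 * D) (ht0 : 1 / 2 ≤ t) (ht : t ≤ 1) :
    1 - D * t - A * t * (1 - t) ≤ 1 - (D + A / 2) / 2 := by
  have h3 : A * (t - 1 / 2) ≤ D := by nlinarith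
  have h2 : 0 ≤ (t - 1 / 2) * (D - A * (t - 1 / 2)) :=
    mul_nonneg (by linarith) (by linarith)
  linarith

lemma pt_B {A D t : ℝ} (hA : 0 < A) (hx : 2 * D < A) (ht0 : 1 / 2 ≤ t) (ht : t ≤ 1) :
    1 - D * t - A * t * (1 - t) ≤ 1 - D := by
  have h3 : D ≤ A * t := by nlinarith
  have h2 : 0 ≤ (1 - t) * (A * t - D) := mul_nonneg (by linarith) (by linarith)
  linarith

lemma pt_C {A D t : ℝ} (hA : 0 < A) (hD : 0 < D) (hc : 0 < A / 2 - D) (ht0 : 1 / 2 ≤ t)
    (ht : t ≤ 1) :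
    1 - D * t - A * t * (1 - t) ≤ (1 - D) * (1 - (A / 2 - D) * (1 - t)) := by
  have e1 : 0 ≤ A * (1 - t) * (t - 1 / 2) :=
    mul_nonneg (mul_nonneg hA.le (by linarith)) (by linarith)
  have e2 : 0 ≤ D * ((A / 2 - D) * (1 - t)) :=
    mul_nonneg hD.le (mul_nonneg hc.le (by linarith))
  linarith

lemma k_half (A D : ℝ) : A * D ≤ 1 / 2 * (D + A / 2) ^ 2 := by
  nlinarith [sq_nonneg (D - A / 2)]

lemma k_49 {A D : ℝ} (h : 4 * D < A) (hD : 0 < D) : A * D ≤ 4 / 9 * (D + A / 2) ^ 2 := by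
  nlinarith [mul_pos (show 0 < A - D by linarith) (show 0 < A - 4 * D by linarith)]

lemma integral_t (C : ℝ) : ∫ t in (1 / 2 : ℝ)..1, t * C = 3 / 8 * C := by
  rw [intervalIntegral.integral_mul_const, integral_id]
  norm_num

theorem main : Pool.Agent.W470.Sen.StLarge := by
  intro m hm a D Φ ha0 ha1 hD hD2 hexp hΦ0 hΦ1
  have hmR : (80 : ℝ) ≤ m := by exact_mod_cast hm
  have hm2 : 2 ≤ m := by omega
  have ha2 : a ^ 2 < 1 := by nlinarith
  have ha2' : 0 < a ^ 2 := by positivity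
  set b : ℝ := Real.sqrt (1 - a ^ 2) with hb
  have hb0 : 0 < b := Real.sqrt_pos.2 (by linarith)
  have hb2 : b ^ 2 = 1 - a ^ 2 := Real.sq_sqrt (by linarith)
  have hb1 : b < 1 := by
    have h1 : b ^ 2 < 1 ^ 2 := by rw [hb2]; linarith
    exact lt_of_pow_lt_pow_left₀ 2 (by norm_num) h1
  have hD6 := D_lower ha0 ha1 hD
  have hD0 : 0 < D := by
    have hpos : 0 < (3 + m * (1 - a)) * (1 + a) := by
      have : 0 ≤ (m : ℝ) * (1 - a) := mul_nonneg (by linarith) (by linarith)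
      positivity
    by_contra hcon
    push Not at hcon
    nlinarith
  have hDlt : D < 1 := by nlinarith [sq_nonneg (1 - a), mul_pos (sub_pos.2 ha1) (sub_pos.2 ha1)]
  have hl := l_lower hm ha0 ha1 hD hexp hb0 hb2
  set z : ℝ := 1 / (1 + b) with hz
  have hb10 : 0 < 1 + b := by linarith
  have hz0 : 1 / 2 ≤ z := by
    rw [hz]
    exact one_div_le_one_div_of_le hb10 (by linarith)
  have hzpos : 0 < z := by linarith
  have hlz : 7.4 * z ≤ ((m : ℝ) - 2) / 2 * D := by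
    rw [hz, mul_one_div, div_le_iff₀ hb10]
    exact hl
  have hl37 : 3.7 ≤ ((m : ℝ) - 2) / 2 * D := by linarith
  have h1b : 1 - b = a ^ 2 * z := by
    rw [hz, mul_one_div, eq_div_iff hb10.ne']
    linear_combination -hb2
  have hT := T1_le hm ha0 ha1 hD hD0 hDlt hl37
  -- the factor in front
  have hfac : Real.sqrt (Real.exp 1) * Φ ≤ 3.2976 * (a ^ 2 * z) := by
    have h2 : Φ ≤ 2 * (a ^ 2 * z) := by rw [← h1b]; exact hΦ1
    calc Real.sqrt (Real.exp 1) * Φ ≤ 1.6488 * (2 * (a ^ 2 * z)) :=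
          mul_le_mul sqrt_e h2 hΦ0 (by norm_num)
      _ = _ := by ring
  have hfac0 : 0 ≤ Real.sqrt (Real.exp 1) * Φ := mul_nonneg (Real.sqrt_nonneg _) hΦ0
  -- the function
  have hg0 : ∀ t ∈ Icc (0 : ℝ) 1, 0 ≤ g a D t := by
    intro t ht
    have h2 : g a D t = (1 - a * t) ^ 2 + t * (a * (2 - a) - D) := by
      unfold g; ring
    rw [h2]
    have := mul_nonneg ht.1 (sub_nonneg.2 hD2)
    positivity
  have hgc : Continuous (g a D) := by
    unfold g
    fun_prop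
  have hcont : Continuous (fun t : ℝ => t * (Real.sqrt (g a D t)) ^ (m - 2)) :=
    continuous_id.mul ((Real.continuous_sqrt.comp hgc).pow _)
  have hsplit : ∫ t in (0:ℝ)..1, t * (Real.sqrt (g a D t)) ^ (m - 2) =
      (∫ t in (0:ℝ)..(1 / 2), t * (Real.sqrt (g a D t)) ^ (m - 2)) +
      ∫ t in (1 / 2 : ℝ)..1, t * (Real.sqrt (g a D t)) ^ (m - 2) :=
    (intervalIntegral.integral_add_adjacent_intervals (hcont.intervalIntegrable _ _)
      (hcont.intervalIntegrable _ _)).symm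
  set p : ℝ := ((m : ℝ) - 2) / 2 with hp
  have hp39 : 39 ≤ p := by rw [hp]; linarith
  set k : ℝ := D + a ^ 2 / 2 with hk
  have hk0 : 0 < k := by positivity
  have hk2 : k ≤ 2 := by rw [hk]; linarith
  -- the head
  have hI1 : ∫ t in (0:ℝ)..(1 / 2), t * (Real.sqrt (g a D t)) ^ (m - 2) ≤
      1 / (k ^ 2 * (p + 1) * (p + 2)) := by
    refine le_trans ?_ (head_int hk0 hk2 (by linarith))
    have hc2 : Continuous (fun t : ℝ => t * (1 - k * t) ^ p) :=
      continuous_id.mul (Continuous.rpow_const (by fun_prop) (fun _ => Or.inr (by linarith)))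
    refine intervalIntegral.integral_mono_on (by norm_num) (hcont.intervalIntegrable _ _)
      (hc2.intervalIntegrable _ _) ?_
    intro t ht
    have ht1 : t ∈ Icc (0 : ℝ) 1 := ⟨ht.1, ht.2.trans (by norm_num)⟩
    refine mul_le_mul_of_nonneg_left ?_ ht.1
    rw [sqrt_pow_eq hm2 (hg0 t ht1)]
    exact Real.rpow_le_rpow (hg0 t ht1) (pt_head ha2' ht.1 ht.2) (by linarith)
  -- the general estimate
  have hgen : ∀ J2 H TT : ℝ, 0 ≤ J2 →
      ∫ t in (1 / 2 : ℝ)..1, t * (Real.sqrt (g a D t)) ^ (m - 2) ≤ J2 →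
      3.2976 * (a ^ 2 * z) * (m * (1 / (k ^ 2 * (p + 1) * (p + 2)))) ≤ H →
      3.2976 * (a ^ 2 * z) * (m * J2) ≤ TT → H + TT + 0.08 < 1 →
      Real.sqrt (Real.exp 1) * Φ * (m * ∫ t in (0:ℝ)..1, t * (Real.sqrt (g a D t)) ^ (m - 2))
        + (Real.sqrt (1 - D)) ^ (m + 1) / (1 - a) < 1 := by
    intro J2 H TT hJ2 hI2 hH hTT hsum
    rw [hsplit]
    have hJ1 : 0 ≤ 1 / (k ^ 2 * (p + 1) * (p + 2)) := by positivity
    have h2 : Real.sqrt (Real.exp 1) * Φ *
        (m * ((∫ t in (0:ℝ)..(1 / 2), t * (Real.sqrt (g a D t)) ^ (m - 2)) +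
          ∫ t in (1 / 2 : ℝ)..1, t * (Real.sqrt (g a D t)) ^ (m - 2))) ≤
        3.2976 * (a ^ 2 * z) * (m * (1 / (k ^ 2 * (p + 1) * (p + 2)) + J2)) := by
      refine (mul_le_mul_of_nonneg_left
        (mul_le_mul_of_nonneg_left (add_le_add hI1 hI2) (by linarith)) hfac0).trans ?_
      exact mul_le_mul_of_nonneg_right hfac
        (mul_nonneg (by linarith) (add_nonneg hJ1 hJ2))
    have h3 : 3.2976 * (a ^ 2 * z) * (m * (1 / (k ^ 2 * (p + 1) * (p + 2)) + J2)) =
        3.2976 * (a ^ 2 * z) * (m * (1 / (k ^ 2 * (p + 1) * (p + 2)))) +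
        3.2976 * (a ^ 2 * z) * (m * J2) := by ring
    linarith
  have hcast : ((m - 2 : ℕ) : ℝ) = (m : ℝ) - 2 := by
    rw [Nat.cast_sub hm2]; norm_num
  have hconst : ∀ v : ℝ, (∀ t ∈ Icc (1 / 2 : ℝ) 1, g a D t ≤ 1 - v) →
      ∫ t in (1 / 2 : ℝ)..1, t * (Real.sqrt (g a D t)) ^ (m - 2) ≤
        3 / 8 * Real.exp (-(p * v)) := by
    intro v hv
    rw [← integral_t]
    refine intervalIntegral.integral_mono_on (by norm_num) (hcont.intervalIntegrable _ _)
      ((continuous_id.mul continuous_const).intervalIntegrable _ _) ?_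
    intro t ht
    refine mul_le_mul_of_nonneg_left ?_ (by linarith [ht.1])
    refine (sqrt_pow_le_exp (m - 2) (hv t ht)).trans (le_of_eq ?_)
    rw [hcast, hp]
    congr 1
    ring
  rcases le_or_gt (a ^ 2) (2 * D) with hx1 | hx1
  · -- first case
    have hI2 := hconst (k / 2) (fun t ht => pt_A ha2' hx1 ht.1 ht.2)
    refine hgen _ (0.8913 * (1 / 2)) 0.3 (by positivity) hI2 ?_ ?_ (by norm_num)
    · exact head_le hmR ha2' hzpos hD0 hk hlz (k_half _ _)
    · have h2 := tailA_le hmR ha2' hz0 hlz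
      have h3 : -(p * (k / 2)) = -(p * D / 2 + p * a ^ 2 / 4) := by
        rw [hk]; ring
      rw [h3]
      exact h2
  · rcases le_or_gt (a ^ 2) (4 * D) with hx2 | hx2
    · -- second case
      have hI2 := hconst D (fun t ht => pt_B ha2' hx1 ht.1 ht.2)
      refine hgen _ (0.8913 * (1 / 2)) 0.466 (by positivity) hI2 ?_ ?_ (by norm_num)
      · exact head_le hmR ha2' hzpos hD0 hk hlz (k_half _ _)
      · exact tailB_le hmR hx2 hz0 hlz
    · -- third case
      set c : ℝ := a ^ 2 / 2 - D with hc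
      have hc0 : 0 < c := by rw [hc]; linarith
      have hc2 : c ≤ 2 := by rw [hc]; linarith
      have hI2 : ∫ t in (1 / 2 : ℝ)..1, t * (Real.sqrt (g a D t)) ^ (m - 2) ≤
          Real.exp (-(p * D)) * (1 / (c * (p + 1))) := by
        have hcont2 : Continuous (fun t : ℝ => (1 - c * (1 - t)) ^ p) :=
          Continuous.rpow_const (by fun_prop) (fun _ => Or.inr (by linarith))
        have h2 : ∫ t in (1 / 2 : ℝ)..1, t * (Real.sqrt (g a D t)) ^ (m - 2) ≤
            ∫ t in (1 / 2 : ℝ)..1, Real.exp (-(p * D)) * (1 - c * (1 - t)) ^ p := by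
          refine intervalIntegral.integral_mono_on (by norm_num) (hcont.intervalIntegrable _ _)
            ((continuous_const.mul hcont2).intervalIntegrable _ _) ?_
          intro t ht
          have ht1 : t ∈ Icc (0 : ℝ) 1 := ⟨by linarith [ht.1], ht.2⟩
          have hgt := hg0 t ht1
          have h3 : g a D t ≤ (1 - D) * (1 - c * (1 - t)) := pt_C ha2' hD0 hc0 ht.1 ht.2
          have h4 : 0 ≤ 1 - c * (1 - t) := by
            have e1 : c * (1 - t) ≤ 2 * (1 / 2) :=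
              mul_le_mul hc2 (by linarith [ht.1]) (by linarith [ht.2]) (by norm_num)
            linarith
          have h5 : (Real.sqrt (g a D t)) ^ (m - 2) ≤
              Real.exp (-(p * D)) * (1 - c * (1 - t)) ^ p := by
            rw [sqrt_pow_eq hm2 hgt]
            refine (Real.rpow_le_rpow hgt h3 (by linarith)).trans ?_
            rw [Real.mul_rpow (by linarith) h4]
            refine mul_le_mul_of_nonneg_right ?_ (Real.rpow_nonneg h4 _)
            rw [hp, ← sqrt_pow_eq hm2 (by linarith : (0:ℝ) ≤ 1 - D)]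
            refine (sqrt_pow_le_exp (m - 2) (v := D) le_rfl).trans (le_of_eq ?_)
            rw [hcast]
            congr 1
            ring
          calc t * (Real.sqrt (g a D t)) ^ (m - 2) ≤ 1 * (Real.sqrt (g a D t)) ^ (m - 2) :=
                mul_le_mul_of_nonneg_right ht.2 (by positivity)
            _ ≤ _ := by rw [one_mul]; exact h5
        refine h2.trans ?_
        rw [intervalIntegral.integral_const_mul]
        exact mul_le_mul_of_nonneg_left (tail_int hc0 hc2 (by linarith)) (Real.exp_pos _).le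
      refine hgen _ (0.8913 * (4 / 9)) 0.33 (by positivity) hI2 ?_ ?_ (by norm_num)
      · exact head_le hmR ha2' hzpos hD0 hk hlz (k_49 hx2 hD0)
      · exact tailC_le hmR hD0 hc hx2.le hz0 hlz

end Pool.Agent.W22.SenLarge
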