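import Pool.Agent.W470.Sen.Defs

/-! SEN-VAR: the sharp variance inequality. -/

set_option autoImplicit false

open Finset

namespace Pool.Agent.W22.SenVar

lemma varR {ι : Type*} [Fintype ι] (p a : ι → ℝ) :
    ∑ k, ∑ l, p k * p l * (a k - a l) ^ 2 =
      2 * ((∑ k, p k) * (∑ k, p k * a k ^ 2) - (∑ k, p k * a k) ^ 2) := by
  have h1 : ∀ k l, p k * p l * (a k - a l) ^ 2 =
      (p k * a k ^ 2) * p l - 2 * ((p k * a k) * (p l * a l)) + p k * (p l * a l ^ 2) := by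
    intro k l; ring
  simp_rw [h1, Finset.sum_add_distrib, Finset.sum_sub_distrib, ← Finset.mul_sum,
    ← Finset.sum_mul]
  ring

lemma normsq (z : ℂ) : ‖z‖ ^ 2 = z.re ^ 2 + z.im ^ 2 := by
  rw [← Complex.normSq_eq_norm_sq, Complex.normSq_apply]
  ring

lemma varC {ι : Type*} [Fintype ι] (p : ι → ℝ) (w : ι → ℂ) :
    ∑ k, ∑ l, p k * p l * ‖w k - w l‖ ^ 2 =
      2 * ((∑ k, p k) * (∑ k, p k * ‖w k‖ ^ 2) - ‖∑ k, (p k : ℂ) * w k‖ ^ 2) := by
  have h1 : ∀ k l, p k * p l * ‖w k - w l‖ ^ 2 =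
      p k * p l * ((w k).re - (w l).re) ^ 2 + p k * p l * ((w k).im - (w l).im) ^ 2 := by
    intro k l
    rw [normsq, Complex.sub_re, Complex.sub_im]
    ring
  have h2 : (∑ k, (p k : ℂ) * w k).re = ∑ k, p k * (w k).re := by
    rw [Complex.re_sum]
    refine Finset.sum_congr rfl fun k _ => ?_
    simp
  have h3 : (∑ k, (p k : ℂ) * w k).im = ∑ k, p k * (w k).im := by
    rw [Complex.im_sum]
    refine Finset.sum_congr rfl fun k _ => ?_
    simp
  have h4 : ∑ k, p k * ‖w k‖ ^ 2 = ∑ k, p k * (w k).re ^ 2 + ∑ k, p k * (w k).im ^ 2 := by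
    rw [← Finset.sum_add_distrib]
    refine Finset.sum_congr rfl fun k _ => ?_
    rw [normsq]
    ring
  simp_rw [h1, Finset.sum_add_distrib]
  rw [varR p fun k => (w k).re, varR p fun k => (w k).im, normsq, h2, h3, h4]
  ring

lemma cs_weighted {ι : Type*} [Fintype ι] (p : ι → ℝ) (hp : ∀ k, 0 ≤ p k) (w : ι → ℂ) :
    ‖∑ k, (p k : ℂ) * w k‖ ^ 2 ≤ (∑ k, p k) * (∑ k, p k * ‖w k‖ ^ 2) := by
  have h1 := varC p w
  have h2 : 0 ≤ ∑ k, ∑ l, p k * p l * ‖w k - w l‖ ^ 2 :=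
    Finset.sum_nonneg fun k _ => Finset.sum_nonneg fun l _ =>
      mul_nonneg (mul_nonneg (hp k) (hp l)) (sq_nonneg _)
  linarith

lemma var1 {m : ℕ} (hm : 0 < m) (z : Fin m → ℂ) :
    ∑ k, ‖z k - (∑ j, z j) / m‖ ^ 2 = ∑ k, ‖z k‖ ^ 2 - ‖∑ k, z k‖ ^ 2 / m := by
  have hm' : (m : ℝ) ≠ 0 := by positivity
  have key : ∀ a : Fin m → ℝ, ∑ k, (a k - (∑ j, a j) / m) ^ 2 =
      ∑ k, a k ^ 2 - (∑ k, a k) ^ 2 / m := by
    intro a
    have h1 : ∀ k, (a k - (∑ j, a j) / m) ^ 2 =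
        a k ^ 2 - 2 * ((∑ j, a j) / m) * a k + ((∑ j, a j) / m) ^ 2 := by
      intro k; ring
    simp_rw [h1, Finset.sum_add_distrib, Finset.sum_sub_distrib, ← Finset.mul_sum]
    rw [Finset.sum_const, Finset.card_univ, Fintype.card_fin, nsmul_eq_mul]
    field_simp
    ring
  have h1 : ∀ k, ‖z k - (∑ j, z j) / m‖ ^ 2 =
      ((z k).re - (∑ j, (z j).re) / m) ^ 2 + ((z k).im - (∑ j, (z j).im) / m) ^ 2 := by
    intro k
    have e : (∑ j, z j) / (m : ℂ) = (∑ j, z j) / ((m : ℝ) : ℂ) := by norm_cast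
    rw [normsq, Complex.sub_re, Complex.sub_im, e, Complex.div_ofReal_re, Complex.div_ofReal_im,
      Complex.re_sum, Complex.im_sum]
  simp_rw [h1, Finset.sum_add_distrib]
  rw [key fun k => (z k).re, key fun k => (z k).im, normsq (∑ k, z k), Complex.re_sum,
    Complex.im_sum]
  simp_rw [normsq, Finset.sum_add_distrib]
  ring

/-- the elementary inequality at the end -/
lemma final_ineq {Eb Mb nw no d : ℝ} (h1 : (Real.exp 1)⁻¹ ≤ Eb) (h2 : Mb ≤ (Real.exp 1)⁻¹)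
    (h3 : nw ≤ d + no) (hnw : 0 ≤ nw)
    (h4 : d ^ 2 ≤ (1 - Eb) * (1 - Mb)) :
    Real.exp 1 ^ 2 * (Eb * Mb - no ^ 2) ≤ Real.exp 1 * (1 - nw ^ 2) := by
  set e := Real.exp 1 with he
  have he2 : 2 < e := by
    have := Real.exp_one_gt_d9
    linarith
  have he0 : 0 < e := by linarith
  have he1 : 0 < e - 1 := by linarith
  -- `(e-1) nw² ≤ e d² + e (e-1) no²`
  have h5 : (e - 1) * nw ^ 2 ≤ e * d ^ 2 + e * (e - 1) * no ^ 2 := by
    have e1 : nw ^ 2 ≤ (d + no) ^ 2 := pow_le_pow_left₀ hnw h3 2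
    have e2 : (e - 1) * (d + no) ^ 2 ≤ e * d ^ 2 + e * (e - 1) * no ^ 2 := by
      nlinarith [sq_nonneg (d - (e - 1) * no)]
    exact (mul_le_mul_of_nonneg_left e1 he1.le).trans e2
  have h6 : (e - 1) * nw ^ 2 ≤ e * ((1 - Eb) * (1 - Mb)) + e * (e - 1) * no ^ 2 := by
    have := mul_le_mul_of_nonneg_left h4 he0.le
    linarith
  -- the identity
  have h7 : 0 ≤ (Eb - e⁻¹) * (e⁻¹ - Mb) := mul_nonneg (by linarith) (by linarith)
  have hee : e * e⁻¹ = 1 := mul_inv_cancel₀ he0.ne'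
  -- (e-1) * (e (1 - nw²) - e² (Eb Mb - no²)) ≥ e³ α β
  have h8 : 0 ≤ (e - 1) * (e * (1 - nw ^ 2) - e ^ 2 * (Eb * Mb - no ^ 2)) := by
    have h9 : (e - 1) * (e - e ^ 2 * (Eb * Mb)) - e * (e * ((1 - Eb) * (1 - Mb))) =
        e ^ 3 * ((Eb - e⁻¹) * (e⁻¹ - Mb)) := by
      have e1 : e ^ 3 * ((Eb - e⁻¹) * (e⁻¹ - Mb)) =
          e ^ 2 * (e * e⁻¹) * Eb - e ^ 3 * (Eb * Mb) - e * (e * e⁻¹) * (e * e⁻¹) +
            e ^ 2 * (e * e⁻¹) * Mb := by ring
      rw [e1, hee]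
      ring
    have h10 : 0 ≤ e ^ 3 * ((Eb - e⁻¹) * (e⁻¹ - Mb)) := mul_nonneg (by positivity) h7
    have h11 := mul_le_mul_of_nonneg_left h6 he0.le
    nlinarith
  have h12 := nonneg_of_mul_nonneg_right h8 he1
  linarith

/-- the normalised inequality -/
lemma core {m : ℕ} (hm : 2 ≤ m) (w : Fin m → ℂ) (hQ : ∑ j, ‖w j‖ ^ 2 = m) :
    ‖∑ k, (w k - (∑ j, w j) / m) * ∏ j ∈ univ.erase k, w j‖ ≤
      Real.sqrt (Real.exp 1) * m * (1 - ‖(∑ j, w j) / m‖ ^ 2) := by
  have hm0 : 0 < m := by omega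
  have hmR : (0 : ℝ) < m := by exact_mod_cast hm0
  set e := Real.exp 1 with he
  set P : Fin m → ℂ := fun k => ∏ j ∈ univ.erase k, w j with hP
  set wb : ℂ := (∑ j, w j) / m with hwb
  set Pb : ℂ := (∑ j, P j) / m with hPb
  let y : Fin m → ℝ := fun k => ‖w k‖ ^ 2
  let E : Fin m → ℝ := fun k => Real.exp (-(y k))
  have hE0 : ∀ k, 0 < E k := fun k => Real.exp_pos _
  have hy0 : ∀ k, 0 ≤ y k := fun k => sq_nonneg _
  have hysum : ∑ k, y k = m := hQ
  -- step 1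
  have hsum0 : ∑ k, (w k - wb) = 0 := by
    rw [Finset.sum_sub_distrib, Finset.sum_const, Finset.card_univ, Fintype.card_fin,
      nsmul_eq_mul, hwb, mul_div_cancel₀ _ (by exact_mod_cast hm0.ne' : (m : ℂ) ≠ 0), sub_self]
  have hF : ∑ k, (w k - wb) * P k = ∑ k, (w k - wb) * (P k - Pb) := by
    simp_rw [mul_sub]
    rw [Finset.sum_sub_distrib, ← Finset.sum_mul, hsum0, zero_mul, sub_zero]
  have hCS : ‖∑ k, (w k - wb) * P k‖ ^ 2 ≤
      (∑ k, ‖w k - wb‖ ^ 2) * (∑ k, ‖P k - Pb‖ ^ 2) := by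
    rw [hF]
    have h1 : ‖∑ k, (w k - wb) * (P k - Pb)‖ ≤ ∑ k, ‖w k - wb‖ * ‖P k - Pb‖ := by
      refine (norm_sum_le _ _).trans (le_of_eq ?_)
      exact Finset.sum_congr rfl fun k _ => norm_mul _ _
    refine (pow_le_pow_left₀ (norm_nonneg _) h1 2).trans ?_
    exact Finset.sum_mul_sq_le_sq_mul_sq _ _ _
  have hA : ∑ k, ‖w k - wb‖ ^ 2 = m * (1 - ‖wb‖ ^ 2) := by
    rw [hwb, var1 hm0 w, hQ, norm_div, Complex.norm_natCast]
    field_simp
  have hBP : ∑ k, ‖P k - Pb‖ ^ 2 = (1 / (2 * m)) * ∑ k, ∑ l, ‖P k - P l‖ ^ 2 := by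
    have h1 := varC (fun _ : Fin m => (1 : ℝ)) P
    simp only [one_mul, Complex.ofReal_one, Finset.sum_const, Finset.card_univ, Fintype.card_fin,
      nsmul_eq_mul, mul_one] at h1
    rw [h1, hPb, var1 hm0 P]
    field_simp
  -- step 2
  have hPkl : ∀ k l, ‖P k - P l‖ ^ 2 ≤ e ^ 2 * (E k * E l * ‖w k - w l‖ ^ 2) := by
    intro k l
    rcases eq_or_ne k l with rfl | hkl
    · simp
    · have hl : l ∈ univ.erase k := Finset.mem_erase.2 ⟨hkl.symm, Finset.mem_univ _⟩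
      have hk : k ∈ univ.erase l := Finset.mem_erase.2 ⟨hkl, Finset.mem_univ _⟩
      have e1 : P k = w l * ∏ j ∈ (univ.erase k).erase l, w j := (Finset.mul_prod_erase _ _ hl).symm
      have e2 : P l = w k * ∏ j ∈ (univ.erase k).erase l, w j := by
        rw [Finset.erase_right_comm]
        exact (Finset.mul_prod_erase _ _ hk).symm
      have e3 : P k - P l = (w l - w k) * ∏ j ∈ (univ.erase k).erase l, w j := by
        rw [e1, e2]; ring
      have e4 : (‖∏ j ∈ (univ.erase k).erase l, w j‖) ^ 2 = ∏ j ∈ (univ.erase k).erase l, y j := by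
        rw [norm_prod, ← Finset.prod_pow]
      have e5 : ∏ j ∈ (univ.erase k).erase l, y j ≤
          Real.exp (∑ j ∈ (univ.erase k).erase l, (y j - 1)) := by
        rw [Real.exp_sum]
        refine Finset.prod_le_prod (fun j _ => hy0 j) fun j _ => ?_
        have := Real.add_one_le_exp (y j - 1)
        linarith
      have e6 : ∑ j ∈ (univ.erase k).erase l, (y j - 1) = 2 + (-(y k)) + (-(y l)) := by
        have h1 := Finset.add_sum_erase univ (fun j => y j - 1) (Finset.mem_univ k)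
        have h2 := Finset.add_sum_erase (univ.erase k) (fun j => y j - 1) hl
        have h3 : ∑ j, (y j - 1) = 0 := by
          rw [Finset.sum_sub_distrib, hysum, Finset.sum_const, Finset.card_univ,
            Fintype.card_fin, nsmul_eq_mul, mul_one, sub_self]
        linarith
      rw [e3, norm_mul, mul_pow, e4, norm_sub_rev]
      rw [e6, Real.exp_add, Real.exp_add] at e5
      have e7 : Real.exp 2 = e ^ 2 := by
        rw [he, ← Real.exp_nat_mul]
        norm_num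
      rw [e7] at e5
      calc ‖w k - w l‖ ^ 2 * ∏ j ∈ (univ.erase k).erase l, y j
          ≤ ‖w k - w l‖ ^ 2 * (e ^ 2 * Real.exp (-(y k)) * Real.exp (-(y l))) :=
            mul_le_mul_of_nonneg_left e5 (sq_nonneg _)
        _ = e ^ 2 * (E k * E l * ‖w k - w l‖ ^ 2) := by
            change _ = e ^ 2 * (Real.exp (-(y k)) * Real.exp (-(y l)) * ‖w k - w l‖ ^ 2)
            ring
  -- step 3
  set Eb : ℝ := (∑ k, E k) / m with hEb
  set Mb : ℝ := (∑ k, E k * ‖w k‖ ^ 2) / m with hMb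
  set om : ℂ := (∑ k, (E k : ℂ) * w k) / m with hom
  have hBP2 : ∑ k, ‖P k - Pb‖ ^ 2 ≤ m * (e ^ 2 * (Eb * Mb - ‖om‖ ^ 2)) := by
    rw [hBP]
    have h1 : ∑ k, ∑ l, ‖P k - P l‖ ^ 2 ≤ ∑ k, ∑ l, e ^ 2 * (E k * E l * ‖w k - w l‖ ^ 2) :=
      Finset.sum_le_sum fun k _ => Finset.sum_le_sum fun l _ => hPkl k l
    simp_rw [← Finset.mul_sum] at h1
    rw [varC E w] at h1
    have h2 := mul_le_mul_of_nonneg_left h1 (show (0 : ℝ) ≤ 1 / (2 * m) by positivity)
    refine h2.trans (le_of_eq ?_)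
    rw [hEb, hMb, hom, norm_div, Complex.norm_natCast]
    field_simp
  -- step 4
  have hEb1 : e⁻¹ ≤ Eb := by
    rw [hEb, le_div_iff₀ hmR]
    have h1 : ∀ k, e⁻¹ * (2 - y k) ≤ E k := by
      intro k
      have h2 := Real.add_one_le_exp (1 - y k)
      have h3 : E k = e⁻¹ * Real.exp (1 - y k) := by
        change Real.exp (-(y k)) = _
        rw [he, ← Real.exp_neg, ← Real.exp_add]
        congr 1
        ring
      rw [h3]
      refine mul_le_mul_of_nonneg_left (by linarith) (by positivity)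
    calc e⁻¹ * m = ∑ k, e⁻¹ * (2 - y k) := by
          rw [← Finset.mul_sum, Finset.sum_sub_distrib, hysum, Finset.sum_const,
            Finset.card_univ, Fintype.card_fin, nsmul_eq_mul]
          ring
      _ ≤ ∑ k, E k := Finset.sum_le_sum fun k _ => h1 k
  have hMb1 : Mb ≤ e⁻¹ := by
    rw [hMb, div_le_iff₀ hmR]
    have h1 : ∀ k, E k * ‖w k‖ ^ 2 ≤ e⁻¹ := by
      intro k
      have h2 : y k ≤ Real.exp (y k - 1) := by
        have := Real.add_one_le_exp (y k - 1)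
        linarith
      have h3 : E k * Real.exp (y k - 1) = e⁻¹ := by
        change Real.exp (-(y k)) * _ = _
        rw [he, ← Real.exp_neg, ← Real.exp_add]
        congr 1
        ring
      rw [← h3]
      exact mul_le_mul_of_nonneg_left h2 (hE0 k).le
    calc ∑ k, E k * ‖w k‖ ^ 2 ≤ ∑ k : Fin m, e⁻¹ := Finset.sum_le_sum fun k _ => h1 k
      _ = e⁻¹ * m := by
        rw [Finset.sum_const, Finset.card_univ, Fintype.card_fin, nsmul_eq_mul, mul_comm]
  have hd : ‖wb - om‖ ^ 2 ≤ (1 - Eb) * (1 - Mb) := by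
    have h1 := cs_weighted (fun k => 1 - E k) (fun k => by
      have : E k ≤ 1 := Real.exp_le_one_iff.2 (by have := hy0 k; linarith)
      linarith) w
    have h2 : wb - om = (∑ k, ((1 - E k : ℝ) : ℂ) * w k) / m := by
      rw [hwb, hom, ← sub_div, ← Finset.sum_sub_distrib]
      congr 1
      refine Finset.sum_congr rfl fun k _ => ?_
      push_cast
      ring
    have h3 : ∑ k, (1 - E k) = m * (1 - Eb) := by
      rw [Finset.sum_sub_distrib, Finset.sum_const, Finset.card_univ, Fintype.card_fin,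
        nsmul_eq_mul, hEb]
      field_simp
    have h4 : ∑ k, (1 - E k) * ‖w k‖ ^ 2 = m * (1 - Mb) := by
      simp_rw [sub_mul, one_mul]
      rw [Finset.sum_sub_distrib, hQ, hMb]
      field_simp
    rw [h3, h4] at h1
    rw [h2, norm_div, Complex.norm_natCast, div_pow, div_le_iff₀ (by positivity)]
    calc _ ≤ _ := h1
      _ = _ := by ring
  have htri : ‖wb‖ ≤ ‖wb - om‖ + ‖om‖ := by
    have := norm_add_le (wb - om) om
    rwa [sub_add_cancel] at this
  have hfin := final_ineq hEb1 hMb1 htri (norm_nonneg _) hd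
  rw [← he] at hfin
  -- step 5
  have hA0 : 0 ≤ m * (1 - ‖wb‖ ^ 2) := by
    rw [← hA]
    exact Finset.sum_nonneg fun k _ => sq_nonneg _
  have hT0 : 0 ≤ 1 - ‖wb‖ ^ 2 := nonneg_of_mul_nonneg_right hA0 hmR
  have h1 : ‖∑ k, (w k - wb) * P k‖ ^ 2 ≤ (Real.sqrt e * m * (1 - ‖wb‖ ^ 2)) ^ 2 := by
    refine hCS.trans ?_
    rw [hA]
    have h2 : (m * (1 - ‖wb‖ ^ 2)) * (∑ k, ‖P k - Pb‖ ^ 2) ≤
        (m * (1 - ‖wb‖ ^ 2)) * (m * (e * (1 - ‖wb‖ ^ 2))) := by
      refine mul_le_mul_of_nonneg_left (hBP2.trans ?_) hA0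
      exact mul_le_mul_of_nonneg_left hfin hmR.le
    refine h2.trans (le_of_eq ?_)
    rw [mul_pow, mul_pow, Real.sq_sqrt (Real.exp_pos 1).le]
    ring
  exact le_of_sq_le_sq h1 (by positivity)

theorem main : Pool.Agent.W470.Sen.StVar := by
  intro m hm w
  have hm0 : 0 < m := by omega
  have hmR : (0 : ℝ) < m := by exact_mod_cast hm0
  set Q : ℝ := (∑ j, ‖w j‖ ^ 2) / m with hQ
  have hQ0 : 0 ≤ Q := div_nonneg (Finset.sum_nonneg fun j _ => sq_nonneg _) hmR.le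
  rcases hQ0.eq_or_lt with h0 | hpos
  · have h1 : ∑ j, ‖w j‖ ^ 2 = 0 := by
      have := h0.symm
      rw [hQ, div_eq_zero_iff] at this
      rcases this with h | h
      · exact h
      · exact absurd h hmR.ne'
    have h2 : ∀ j, w j = 0 := by
      intro j
      have := (Finset.sum_eq_zero_iff_of_nonneg (fun j _ => sq_nonneg (‖w j‖))).1 h1 j
        (Finset.mem_univ j)
      exact norm_eq_zero.1 (pow_eq_zero_iff two_ne_zero |>.1 this)
    have h3 : ∑ j, w j = 0 := Finset.sum_eq_zero fun j _ => h2 j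
    rw [h3, ← h0]
    simp [h2]
  · set r : ℝ := Real.sqrt Q with hr
    have hr0 : 0 < r := Real.sqrt_pos.2 hpos
    have hr2 : r ^ 2 = Q := Real.sq_sqrt hQ0
    have hrC : (r : ℂ) ≠ 0 := by exact_mod_cast hr0.ne'
    let v : Fin m → ℂ := fun k => w k / r
    have hv : ∑ j, ‖v j‖ ^ 2 = m := by
      have h1 : ∀ j, ‖v j‖ ^ 2 = ‖w j‖ ^ 2 / Q := by
        intro j
        change ‖w j / (r : ℂ)‖ ^ 2 = _
        rw [norm_div, div_pow, Complex.norm_real, Real.norm_of_nonneg hr0.le, hr2]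
      rw [Finset.sum_congr rfl fun j _ => h1 j, ← Finset.sum_div, div_eq_iff hpos.ne', hQ]
      field_simp
    have h1 := core hm v hv
    have hsum : (∑ j, v j) / m = ((∑ j, w j) / m) / r := by
      have h2 : ∑ j, v j = (∑ j, w j) / r := by
        rw [Finset.sum_div]
      rw [h2]
      ring
    have hprod : ∀ k, ∏ j ∈ univ.erase k, v j = (∏ j ∈ univ.erase k, w j) / (r : ℂ) ^ (m - 1) := by
      intro k
      have h2 : ∀ j, v j = w j / (r : ℂ) := fun j => rfl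
      rw [Finset.prod_congr rfl fun j _ => h2 j, Finset.prod_div_distrib, Finset.prod_const, Finset.card_erase_of_mem (Finset.mem_univ k),
        Finset.card_univ, Fintype.card_fin]
    have hF : ∑ k, (v k - (∑ j, v j) / m) * ∏ j ∈ univ.erase k, v j =
        (∑ k, (w k - (∑ j, w j) / m) * ∏ j ∈ univ.erase k, w j) / (r : ℂ) ^ m := by
      refine Eq.trans (Finset.sum_congr rfl (fun k _ => ?_)) (Finset.sum_div _ _ _).symm
      rw [hsum, hprod]
      have h2 : (r : ℂ) ^ m = (r : ℂ) ^ (m - 1) * r := by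
        rw [← pow_succ]
        congr 1
        omega
      rw [h2]
      change (w k / (r : ℂ) - _) * _ = _
      field_simp
    rw [hF, hsum, norm_div, norm_div _ (r : ℂ), norm_pow, Complex.norm_real,
      Real.norm_of_nonneg hr0.le, div_le_iff₀ (by positivity)] at h1
    refine h1.trans (le_of_eq ?_)
    have h2 : r ^ m = r ^ (m - 2) * Q := by
      rw [← hr2, ← pow_add]
      congr 1
      omega
    rw [h2, div_pow, hr2]
    field_simp

end Pool.Agent.W22.SenVar
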